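import Mathlib
import Pool.Agent.Results.MP_d23b2b_gt.UnderCH
import Pool.Agent.Helper292.ForceCH

/-!
# It is consistent with ZFC that `C_p(X)` is hereditarily sequentially separable and not cosmic

The forcing language is the one of `Helper292.ForceCH`: a sentence is the set of the conditions
which force it; `CHHolds P` says that `ω₁` many subsets of `ℕ` are all subsets of `ℕ`.
-/

set_option autoImplicit false

namespace Pool.Agent.Results.MP_d23b2b_gt.ForcedFailure

open Set Cardinal Pool.Agent.Helper292.ForceCH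

/-- (1) Some forcing notion forces that `ω₁` is preserved and that the continuum hypothesis holds.
(2) The continuum hypothesis implies that there is a Tychonoff space `X` such that every subset of
`C_p(X)` is sequentially separable while `C_p(X)` has no countable network. -/
theorem result :
    (∃ (P : Type) (_ : Preorder P), Nonempty P ∧ ∀ p : P,
      p ∈ OmegaOnePreserved P ∧ p ∈ CHHolds P) ∧
    ((ℵ₁ : Cardinal.{0}) = 𝔠 →
      ∃ (X : Type) (_ : TopologicalSpace X), T35Space X ∧
      (∀ A : Set (X → ℝ), A ⊆ {f : X → ℝ | Continuous f} →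
        ∃ D : Set (X → ℝ), D ⊆ A ∧ D.Countable ∧
          ∀ f ∈ A, ∃ u : ℕ → X → ℝ, (∀ k, u k ∈ D) ∧ Filter.Tendsto u Filter.atTop (nhds f)) ∧
      ¬ ∃ N : Set (Set (X → ℝ)), N.Countable ∧ ∀ f : X → ℝ, Continuous f →
        ∀ U : Set (X → ℝ), IsOpen U → f ∈ U → ∃ n ∈ N, f ∈ n ∧ n ⊆ U) := by
  refine ⟨?_, fun h => UnderCH.result h.symm⟩
  · obtain ⟨P, i, h1, h2⟩ := exists_forcing
    exact ⟨P, i, h1, fun p => ⟨(h2 p).1, (h2 p).2.2⟩⟩

end Pool.Agent.Results.MP_d23b2b_gt.ForcedFailure
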